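import Pool.Agent.H24.SCG2.Base2

/-!
Row C2Z of the board `scg2`: assembly of case 2 modulo scalars.
-/

namespace Pool.Agent.H66.SCG2

open Pool.SCG Matrix

section lem

variable {F : Type} [Field F]

theorem dg_inv_mul' {b1 b2 b3 : F} (h : b1 * b2 * b3 = 1) :
    dg b1 b2 b3 * dg b1⁻¹ b2⁻¹ b3⁻¹ = 1 := by
  have h1 : b1 ≠ 0 := by rintro rfl; simp at h
  have h2 : b2 ≠ 0 := by rintro rfl; simp at h
  have h3 : b3 ≠ 0 := by rintro rfl; simp at h
  rw [dg_mul, mul_inv_cancel₀ h1, mul_inv_cancel₀ h2, mul_inv_cancel₀ h3, dg_one]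

/-- the homology `H1` is in `⟨a, c⟩` -/
theorem exists_h1' {a c : Cor F} {b1 b2 b3 : F} (ha : Is a true (dg b1 b2 b3))
    (hc : Is c false (dg 1 (-1) (-1)) ∨ Is c true (dg b1 (-b2) (-b3))) (X : Subgroup (Cor F))
    (haX : a ∈ X) (hcX : c ∈ X) :
    ∃ h ∈ X, Is h false (dg 1 (-1) (-1)) := by
  rcases hc with hc | hc
  · exact ⟨c, hcX, hc⟩
  · have hdet : b1 * b2 * b3 = 1 := by rw [← dg_det]; exact ha.det
    have h1 : b1 ≠ 0 := by rintro rfl; simp at hdet
    have h2 : b2 ≠ 0 := by rintro rfl; simp at hdet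
    have h3 : b3 ≠ 0 := by rintro rfl; simp at hdet
    refine ⟨a * c, mul_mem haX hcX, ?_⟩
    have := ha.mul_outer' hc (dg_inv_mul' hdet)
    rw [dg_transpose, dg_mul] at this
    have e1 : b1⁻¹ * b1 = 1 := inv_mul_cancel₀ h1
    have e2 : b2⁻¹ * -b2 = -1 := by rw [mul_neg, inv_mul_cancel₀ h2]
    have e3 : b3⁻¹ * -b3 = -1 := by rw [mul_neg, inv_mul_cancel₀ h3]
    rw [e1, e2, e3] at this
    exact this

/-- the matrix of `a * b` -/
def MM (b1 b2 w1 w2 s α β γ : F) : M3 F :=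
  !![α + (β - α) * (b1 * w1 ^ 2 * s), (β - α) * (b2 * w1 * w2 * s), 0;
    (β - α) * (b1 * w1 * w2 * s), α + (β - α) * (b2 * w2 ^ 2 * s), 0; 0, 0, γ]

theorem dg_inv_BM {b1 b2 b3 w1 w2 α β γ : F} (h1 : b1 ≠ 0) (h2 : b2 ≠ 0) (h3 : b3 ≠ 0) :
    (dg b1⁻¹ b2⁻¹ b3⁻¹).transpose * BM b1 b2 b3 w1 w2 α β γ =
      MM b1 b2 w1 w2 (b1 * w1 ^ 2 + b2 * w2 ^ 2)⁻¹ α β γ := by
  have e1 : b1⁻¹ * b1 = 1 := inv_mul_cancel₀ h1
  have e2 : b2⁻¹ * b2 = 1 := inv_mul_cancel₀ h2
  have e3 : b3⁻¹ * b3 = 1 := inv_mul_cancel₀ h3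
  rw [dg_transpose]
  ext i j
  fin_cases i <;> fin_cases j <;> simp [dg, BM, MM, Matrix.mul_apply, Fin.sum_univ_three]
  · generalize (b1 * w1 ^ 2 + b2 * w2 ^ 2)⁻¹ = s
    linear_combination (α + (β - α) * b1 * w1 ^ 2 * s) * e1
  · generalize (b1 * w1 ^ 2 + b2 * w2 ^ 2)⁻¹ = s
    linear_combination ((β - α) * w1 * b2 * w2 * s) * e1
  · generalize (b1 * w1 ^ 2 + b2 * w2 ^ 2)⁻¹ = s
    linear_combination ((β - α) * w1 * b1 * w2 * s) * e2
  · generalize (b1 * w1 ^ 2 + b2 * w2 ^ 2)⁻¹ = s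
    linear_combination (α + (β - α) * b2 * w2 ^ 2 * s) * e2
  · linear_combination γ * e3

theorem MM_sq {b1 b2 w1 w2 s α β γ : F} (hs : (b1 * w1 ^ 2 + b2 * w2 ^ 2) * s = 1)
    (h1 : α ^ 2 = β ^ 2) (h2 : γ ^ 2 = β ^ 2) :
    MM b1 b2 w1 w2 s α β γ * MM b1 b2 w1 w2 s α β γ = dg (β ^ 2) (β ^ 2) (β ^ 2) := by
  ext i j
  fin_cases i <;> fin_cases j <;> simp [dg, MM, Matrix.mul_apply, Fin.sum_univ_three]
  · linear_combination ((β - α) ^ 2 * b1 * w1 ^ 2 * s) * hs + (1 - b1 * w1 ^ 2 * s) * h1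
  · linear_combination ((β - α) ^ 2 * b2 * w1 * w2 * s) * hs - (b2 * w1 * w2 * s) * h1
  · linear_combination ((β - α) ^ 2 * b1 * w1 * w2 * s) * hs - (b1 * w1 * w2 * s) * h1
  · linear_combination ((β - α) ^ 2 * b2 * w2 ^ 2 * s) * hs + (1 - b2 * w2 ^ 2 * s) * h1
  · linear_combination h2

end lem

theorem c2z_thm (hPAR : PARStmt) (hSWZ : SWZStmt) (hBCZ : BCZStmt) (hT5C : T5CStmt)
    (hC2H : C2HwStmt) (hC2A : C2AwStmt) (hC2B : C2BwStmt)
    (hC2E : C2EwStmt) (hC2D : C2DwStmt) (hC2W : C2WwStmt) (hC2F : C2FwStmt) (hC2G : C2GwStmt)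
    (hC2C : C2CwStmt) (hC2X : C2XwStmt) (hC2S : C2SwStmt) (hMA1 : MA1Stmt) (hMB1 : MB1Stmt)
    (hTA : TAStmt) (hTB : TBStmt) : C2ZStmt := by
  intro F _ _ hF a b c d e b1 b2 b3 hZ hN
  have h2 : (2 : F) ≠ 0 := by
    obtain ⟨p, _, _, _, h2, _⟩ := hPAR F hF
    exact h2
  have hG : G2 F := ⟨h2, trivial⟩
  have hbd : b * d = d * b := hZ.bdx (Or.inr (Or.inr (Or.inr hN.he.1)))
  have hS : Str5w a b c d e := hSWZ F a b c d e hZ hbd
  have hdet : b1 * b2 * b3 = 1 := by rw [← dg_det]; exact hN.ha.det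
  have hb10 : b1 ≠ 0 := by rintro rfl; simp at hdet
  have hb20 : b2 ≠ 0 := by rintro rfl; simp at hdet
  have hb30 : b3 ≠ 0 := by rintro rfl; simp at hdet
  set X : Subgroup (Cor F) := Subgroup.closure ({a, b, c, d} ∪ Zs F) with hX
  have haX : a ∈ X := Subgroup.subset_closure (Or.inl (by simp))
  have hbX : b ∈ X := Subgroup.subset_closure (Or.inl (by simp))
  have hcX : c ∈ X := Subgroup.subset_closure (Or.inl (by simp))
  have hdX : d ∈ X := Subgroup.subset_closure (Or.inl (by simp))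
  have hzX : ∀ z ∈ Zs F, z ∈ X := fun z hz => Subgroup.subset_closure (Or.inr hz)
  obtain ⟨h, hhX, hh⟩ := exists_h1' hN.ha hN.hc X haX hcX
  by_cases hb : b.s = false
  · exact (hC2H F hG a b c d e b1 b2 b3 hS hN hb).elim
  have hb' : b.s = true := by simpa using hb
  by_cases hd : d.s = false
  · obtain ⟨w1, w2, w3, hw3, hq, hdd, hcase⟩ := hC2A F hG a b c d e b1 b2 b3 hS hN hb' hd
    rcases hcase with ⟨κ, k, hk3, hw, hom, hbb⟩ | ⟨k, hk2, hk0, hom, hbb⟩
    · exfalso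
      have hk0 : k ≠ 0 := by rintro rfl; simp at hk3
      by_cases hκ : κ = 0
      · -- `b = a * z`
        subst hκ
        obtain ⟨z, hz⟩ := exists_is (F := F) false (dg k k k) (by
          rw [dg_det]; linear_combination hk3)
        have hzZ : z ∈ Zs F := ⟨k, hk3, hz⟩
        have hBK : k • BK b1 b2 b3 w1 w2 0 = dg b1 b2 b3 * dg k k k := by
          rw [dg_mul]
          ext i j
          fin_cases i <;> fin_cases j <;> simp [BK, dg, mul_comm]
        rw [hBK] at hbb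
        have hbz : b = a * z := hbb.ext (hN.ha.mul_inner hz)
        have haz : z * a = a * z⁻¹ := zs_outer hzZ hN.ha.1
        apply hZ.ab (z * z) (zs_mul hzZ hzZ)
        have e1 : a * b = z := by rw [hbz, ← mul_assoc, hZ.ia.2, one_mul]
        have e2 : b * a = z⁻¹ := by rw [hbz, mul_assoc, haz, ← mul_assoc, hZ.ia.2, one_mul]
        rw [e1, e2, mul_assoc, mul_inv_cancel, mul_one]
      · obtain ⟨z, hz⟩ := exists_is (F := F) false (dg (k ^ 2) (k ^ 2) (k ^ 2)) (by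
          rw [dg_det]; linear_combination (k ^ 3 + 1) * hk3)
        have hzZ : z ∈ Zs F := ⟨k ^ 2, by linear_combination (k ^ 3 + 1) * hk3, hz⟩
        have hbz : Is (b * z) true (BK b1 b2 b3 w1 w2 κ) := by
          have := hbb.mul_inner hz
          rw [dg_smul, Matrix.mul_smul, mul_one, smul_smul] at this
          have e : k ^ 2 * k = 1 := by linear_combination hk3
          rwa [e, one_smul] at this
        exact hZ.v1 (hC2E F hG X a (b * z) h e b1 b2 b3 w1 w2 κ haX (mul_mem hbX (hzX z hzZ)) hhX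
          hN.ha hbz hh hN.he hκ hw hom)
    · have hw1 : w1 ≠ 0 := hC2W F hG a b c d e b1 b2 b3 w1 w2 w3 hS hN (Or.inl hdd) hq
      by_cases hk6 : k ^ 6 = 1
      · -- `(a * b) ^ 2` is scalar
        exfalso
        have hα : (k⁻¹ ^ 2) ^ 2 = k ^ 2 := by
          have e : k⁻¹ * k = 1 := inv_mul_cancel₀ hk0
          have e4 : k⁻¹ ^ 4 * k ^ 4 = 1 := by rw [← mul_pow, e, one_pow]
          calc (k⁻¹ ^ 2) ^ 2 = k⁻¹ ^ 4 * 1 := by ring
            _ = k⁻¹ ^ 4 * k ^ 6 := by rw [hk6]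
            _ = (k⁻¹ ^ 4 * k ^ 4) * k ^ 2 := by ring
            _ = k ^ 2 := by rw [e4, one_mul]
        have hab := hN.ha.mul_outer' hbb (dg_inv_mul' hdet)
        rw [dg_inv_BM hb10 hb20 hb30] at hab
        have hab2 := hab.mul_inner hab
        rw [MM_sq (mul_inv_cancel₀ hom) hα rfl] at hab2
        have hzZ : (a * b) * (a * b) ∈ Zs F :=
          ⟨k ^ 2, by rw [← pow_mul]; exact hk6, hab2⟩
        apply hZ.ab _ hzZ
        have e1 : a * b * (a * b) * (b * a) = a * b * (a * (b * b) * a) := by group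
        rw [e1, hZ.ib.2, mul_one, hZ.ia.2, mul_one]
      have hk26 : (k⁻¹ ^ 2) ^ 2 ≠ k ^ 2 := by
        intro h6
        apply hk6
        have : k ^ 4 * (k⁻¹ ^ 2) ^ 2 = 1 := by
          field_simp
        rw [h6] at this
        calc k ^ 6 = k ^ 4 * k ^ 2 := by ring
          _ = 1 := this
      by_cases hw2 : w2 = 0
      · subst hw2
        have hom' : b1 * w1 ^ 2 ≠ 0 := by simpa using hom
        have hcs := hC2C F hG a b c d e b1 b2 b3 w1 _ _ _ hS hN hbb hom'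
        have hq' : b1 * w1 ^ 2 + b3 * w3 ^ 2 ≠ 0 := by simpa using hq
        exact (hC2F F hG a b c d e b1 b2 b3 w1 w3 hS hN hdd hq' hcs).elim
      · by_cases heq : b1 * w1 ^ 2 = b2 * w2 ^ 2
        · by_cases heq2 : b1 * w1 ^ 2 + b2 * w2 ^ 2 = b3 * w3 ^ 2
          · obtain ⟨P, hPa, hPb, hPc, hPc', hPd, hPd', hPe⟩ :=
              hC2S F hG b1 b2 b3 w1 w2 w3 hdet hw1 hw2 hw3 heq heq2
            have hZ' := hBCZ F P a b c d e hZ
            rcases hN.hc with hc | hc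
            · exact hT5C F P a b c d e (hTA F _ _ _ _ _ k hk0 (hPa a hN.ha) (hPb b _ _ _ hbb)
                (hPc c hc) (hPd d hdd) (hPe e hN.he))
            · exfalso
              apply hZ'.v2
              exact hMA1 F _ (cj P a) (cj P b) (cj P c) (cj P d) k
                (Subgroup.subset_closure (Or.inl (by simp)))
                (Subgroup.subset_closure (Or.inl (by simp)))
                (Subgroup.subset_closure (Or.inl (by simp))) hk0 (hPa a hN.ha)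
                (hPb b _ _ _ hbb) (hPc' c hc) (hPd d hdd)
          · exact (hZ.v1 (hC2X F hG X a b h d e b1 b2 b3 w1 w2 w3 k haX hbX hhX hdX hN.ha hbb hh
              hdd hN.he hw1 hw2 hw3 hk0 hk6 heq heq2 hq)).elim
        · exact (hZ.v1 (hC2D F hG X a b h e b1 b2 b3 w1 w2 _ _ _ haX hbX hhX hN.ha hbb hh hN.he hom
            hw1 hw2 hk26 heq)).elim
  · have hd' : d.s = true := by simpa using hd
    obtain ⟨w1, w2, w3, hw3, hq, hdd, hcase⟩ := hC2B F hG a b c d e b1 b2 b3 hS hN hb' hd'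
    rcases hcase with ⟨κ, hκ, hw, hom, hbb⟩ | ⟨k, hk2, hk0, hom, hbb⟩
    · exact (hZ.v1 (hC2E F hG X a b h e b1 b2 b3 w1 w2 κ haX hbX hhX hN.ha hbb hh hN.he hκ hw
        hom)).elim
    · have hw1 : w1 ≠ 0 := hC2W F hG a b c d e b1 b2 b3 w1 w2 w3 hS hN (Or.inr hdd) hq
      have hom0 : b1 * w1 ^ 2 + b2 * w2 ^ 2 ≠ 0 := by
        rw [hom]
        exact mul_ne_zero hb30 (pow_ne_zero 2 hw3)
      have hk1 : (1 : F) ^ 2 ≠ k⁻¹ ^ 2 := by
        intro h6
        apply hk2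
        have : k ^ 2 * k⁻¹ ^ 2 = 1 := by field_simp
        rw [← h6] at this
        simpa using this
      by_cases hw2 : w2 = 0
      · subst hw2
        have hom' : b1 * w1 ^ 2 ≠ 0 := by simpa using hom0
        have hcs := hC2C F hG a b c d e b1 b2 b3 w1 _ _ _ hS hN hbb hom'
        have hom2 : b1 * w1 ^ 2 = b3 * w3 ^ 2 := by simpa using hom
        exact (hC2G F hG a b c d e b1 b2 b3 w1 w3 hS hN hdd hom2 hw3 hcs).elim
      · by_cases heq : b1 * w1 ^ 2 = b2 * w2 ^ 2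
        · obtain ⟨P, hPa, hPb, hPc, hPc', hPd, hPd', hPe⟩ :=
            hC2S F hG b1 b2 b3 w1 w2 w3 hdet hw1 hw2 hw3 heq hom
          have hZ' := hBCZ F P a b c d e hZ
          rcases hN.hc with hc | hc
          · exfalso
            apply hZ'.v2
            exact hMB1 F _ (cj P a) (cj P b) (cj P c) (cj P d) k
              (Subgroup.subset_closure (Or.inl (by simp)))
              (Subgroup.subset_closure (Or.inl (by simp)))
              (Subgroup.subset_closure (Or.inl (by simp))) hk0 (hPa a hN.ha) (hPb b _ _ _ hbb)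
              (hPc c hc) (hPd' d hdd)
          · exact hT5C F P a b c d e (hTB F _ _ _ _ _ k hk0 (hPa a hN.ha) (hPb b _ _ _ hbb)
              (hPc' c hc) (hPd' d hdd) (hPe e hN.he) hZ'.bc)
        · exact (hZ.v1 (hC2D F hG X a b h e b1 b2 b3 w1 w2 _ _ _ haX hbX hhX hN.ha hbb hh hN.he
            hom0 hw1 hw2 hk1 heq)).elim

end Pool.Agent.H66.SCG2
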