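import Pool.Agent.H24.SCG2.Base2

/-!
Row LFT of the board `scg2`: lifting of homologies and polarities to `Cor K`.
-/

namespace Pool.Agent.H66.SCG2

open Pool.SCG Matrix

section

variable {F K : Type} [Field F] [Field K] [Algebra F K]

theorem coe_iS (g : SL3 F) : ((iS F K g : SL3 K) : M3 K) = (g : M3 F).map (algebraMap F K) := by
  simp only [iS, Matrix.SpecialLinearGroup.map_apply_coe, RingHom.mapMatrix_apply]

theorem iS_it (g : SL3 F) : iS F K (it g) = it (iS F K g) := by
  have h1 : iS F K (g⁻¹) = (iS F K g)⁻¹ := map_inv _ _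
  apply Subtype.ext
  rw [coe_iS]
  simp only [it]
  rw [Matrix.SpecialLinearGroup.coe_transpose, Matrix.SpecialLinearGroup.coe_transpose, ← h1,
    coe_iS, Matrix.transpose_map]

end

theorem lft_thm : Pool.SCG.LFTStmt := by
  intro F K _ _ _ h2 hcube α hα
  refine ⟨?_, ?_⟩
  · rintro ⟨h, hh, rfl⟩
    refine ⟨inn (iS F K h), rel_inn h, rfl, ?_, ?_⟩
    · intro h1
      have hr := rel_inn (K := K) h
      rw [h1] at hr
      exact hα (rel_right hr rel_one)
    · rw [← inn_mul, ← map_mul, hh, map_one]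
      rfl
  · rintro ⟨P, hP, rfl⟩
    obtain ⟨y, hy⟩ := hcube (P : M3 F).det
    have hdP : (P : M3 F).det ≠ 0 := by
      have := (Matrix.isUnit_iff_isUnit_det (P : M3 F)).1 ⟨P, rfl⟩
      exact this.ne_zero
    have hy0 : y ≠ 0 := by
      rintro rfl
      have : algebraMap F K (P : M3 F).det = 0 := by rw [← hy]; simp
      exact hdP ((map_eq_zero_iff _ (algebraMap F K).injective).1 this)
    have hdet : (y⁻¹ • (P : M3 F).map (algebraMap F K)).det = 1 := by
      rw [Matrix.det_smul, Fintype.card_fin]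
      have : ((P : M3 F).map (algebraMap F K)).det = algebraMap F K (P : M3 F).det :=
        (RingHom.map_det (algebraMap F K) (P : M3 F)).symm
      rw [this, ← hy, ← mul_pow, inv_mul_cancel₀ hy0, one_pow]
    have hsym : (y⁻¹ • (P : M3 F).map (algebraMap F K)).transpose =
        y⁻¹ • (P : M3 F).map (algebraMap F K) := by
      rw [Matrix.transpose_smul, ← Matrix.transpose_map, hP]
    refine ⟨⟨⟨y⁻¹ • (P : M3 F).map (algebraMap F K), hdet⟩, true⟩, ?_, rfl, ?_, ?_⟩
    · intro g
      rw [iota_apply, MulAut.mul_apply]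
      show it (_ * iS F K g * _) = iS F K (it (diagAut P g))
      rw [iS_it]
      congr 1
      rw [mul_inv_eq_iff_eq_mul]
      apply Subtype.ext
      rw [Matrix.SpecialLinearGroup.coe_mul, Matrix.SpecialLinearGroup.coe_mul, coe_iS, coe_iS]
      show (y⁻¹ • (P : M3 F).map (algebraMap F K)) * (g : M3 F).map (algebraMap F K) =
        ((P.1 * g.1 * (P⁻¹).1 : M3 F)).map (algebraMap F K) *
          (y⁻¹ • (P : M3 F).map (algebraMap F K))
      rw [Matrix.smul_mul, Matrix.mul_smul, ← Matrix.map_mul, ← Matrix.map_mul]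
      congr 2
      have e : (P⁻¹).1 * P.1 = 1 := by rw [← Units.val_mul, inv_mul_cancel, Units.val_one]
      rw [mul_assoc (P.1 * g.1), e, mul_one]
    · exact fun h => Bool.false_ne_true (congrArg Cor.s h).symm
    · exact (outer_sq_iff (A := y⁻¹ • (P : M3 F).map (algebraMap F K)) ⟨rfl, rfl⟩).2 hsym

end Pool.Agent.H66.SCG2
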