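import Pool.Agent.H24.SCG2.Base2

/-!
Row U5Z of the board `scg2`: assembly of the upper bound modulo scalars.
-/

namespace Pool.Agent.H66.SCG2

open Pool.SCG Matrix

theorem cj_s' {F : Type} [Field F] (P : SL3 F) (x : Cor F) : (cj P x).s = x.s := by
  simp [cj]

theorem u5z_thm (hPAR : PARStmt) (hSWZ : SWZStmt) (hBCZ : BCZStmt) (hRVZ : RVZStmt)
    (hT5C : T5CStmt) (hBCJ : BCJwStmt) (hREV : REVwStmt) (hNORM : NORMwStmt) (hC1A : C1AwStmt)
    (hC1B : C1BwStmt) (hC2 : C2ZStmt) (hC3A : C3AwStmt) (hC3D : C3DwStmt) (hC3P : C3PwStmt)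
    (hC3Q : C3QZStmt) (hNFD : NFDStmt) (hDFIN : DFINStmt) : U5ZStmt := by
  intro F _ _ hF
  have h2 : (2 : F) ≠ 0 := by
    obtain ⟨p, _, _, _, h2, _⟩ := hPAR F hF
    exact h2
  have hG : G2 F := ⟨h2, trivial⟩
  -- the mixed case of the normal form `N3`
  have mixed : ∀ (a b c d e : Cor F) (b1 b2 b3 : F), StrZ a b c d e → Str5w a b c d e →
      N3 a c e b1 b2 b3 → b.s = false → d.s = true → False := by
    intro a b c d e b1 b2 b3 hZ hS hN hb hd
    obtain ⟨P, ρ, σ, x, hρ, hσ, hx, ha, hb, hd, he, hc⟩ :=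
      hC3P F hG a b c d e b1 b2 b3 hS hN hb hd
    exact hC3Q F hF _ _ _ _ _ ρ σ x (hBCZ F P a b c d e hZ) hρ hσ hx ha hb hd he hc
  intro a b c d e hZ
  by_cases hbd : b * d = d * b
  · have hS := hSWZ F a b c d e hZ hbd
    obtain ⟨P, b1, b2, b3, h⟩ := hNORM F h2 a b c d e hS
    have hS' := hBCJ F P a b c d e hS
    have hZ' := hBCZ F P a b c d e hZ
    rcases h with h | h | h | h
    · exfalso
      by_cases hb : (cj P b).s = false
      · by_cases hd : (cj P d).s = false
        · exact hC1A F hG _ _ _ _ _ b1 b2 b3 hS' h hb hd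
        · exact hC1B F hG _ _ _ _ _ b1 b2 b3 hS' h (Or.inr (by simpa using hd))
      · exact hC1B F hG _ _ _ _ _ b1 b2 b3 hS' h (Or.inl (by simpa using hb))
    · exact Or.inl (hT5C F P _ _ _ _ _ (hC2 F hF _ _ _ _ _ b1 b2 b3 hZ' h))
    · exfalso
      by_cases hb : (cj P b).s = false
      · by_cases hd : (cj P d).s = false
        · exact hC3A F hG _ _ _ _ _ b1 b2 b3 hS' h hb hd
        · exact mixed _ _ _ _ _ b1 b2 b3 hZ' hS' h hb (by simpa using hd)
      · by_cases hd : (cj P d).s = false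
        · have hR := hREV F _ _ _ _ _ hS'
          have hRZ := hRVZ F _ _ _ _ _ hZ'
          obtain ⟨P', c1, c2, c3, h'⟩ := hNORM F h2 _ _ _ _ _ hR
          have hR' := hBCJ F P' _ _ _ _ _ hR
          have hRZ' := hBCZ F P' _ _ _ _ _ hRZ
          have hea : (cj P a).s = true := h.ha.1
          have hee : (cj P e).s = true := h.he.1
          rcases h' with h' | h' | h' | h'
          · have := h'.ha.1
            rw [cj_s', hee] at this
            exact absurd this (by decide)
          · have := h'.he.1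
            rw [cj_s', hea] at this
            exact absurd this (by decide)
          · refine mixed _ _ _ _ _ c1 c2 c3 hRZ' hR' h' ?_ ?_
            · rw [cj_s']; exact hd
            · rw [cj_s']; simpa using hb
          · have := h'.he.1
            rw [cj_s', hee] at this
            exact absurd this (by decide)
        · exact hC3D F hG _ _ _ _ _ b1 b2 b3 hS' h (by simpa using hb) (by simpa using hd)
    · exact Or.inr (hT5C F P _ _ _ _ _ (hC2 F hF _ _ _ _ _ b1 b2 b3 (hRVZ F _ _ _ _ _ hZ') h))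
  · exfalso
    obtain ⟨P, σ, x, hσ, hx, ha, hb, hd, he, hc⟩ := hNFD F hF a b c d e hZ hbd
    exact hDFIN F hF _ _ _ _ _ σ x (hBCZ F P a b c d e hZ) hσ hx ha hb hd he hc

end Pool.Agent.H66.SCG2
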