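import Pool.Agent.H24.SCG2.Stmts2
import Pool.Agent.H24.SCG.Base

/-!
Row RELZ of the board `scg2`: an element of `Cor K` which acts trivially on `SL(3,F)` is scalar.
-/

namespace Pool.Agent.H66.SCG2

open Pool.SCG Matrix

/-- elementary matrix `1 + E01` -/
def tA (F : Type) [Field F] : SL3 F := ⟨!![1, 1, 0; 0, 1, 0; 0, 0, 1], by
  simp [Matrix.det_fin_three]⟩

/-- elementary matrix `1 + E12` -/
def tB (F : Type) [Field F] : SL3 F := ⟨!![1, 0, 0; 0, 1, 1; 0, 0, 1], by
  simp [Matrix.det_fin_three]⟩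

/-- elementary matrix `1 + E20` -/
def tC (F : Type) [Field F] : SL3 F := ⟨!![1, 0, 0; 0, 1, 0; 1, 0, 1], by
  simp [Matrix.det_fin_three]⟩

/-- an element whose trace differs from the trace of the inverse -/
def tD (F : Type) [Field F] : SL3 F := ⟨!![0, 0, 1; 1, 0, 0; 0, 1, 1], by
  simp [Matrix.det_fin_three]⟩

section base

variable {F K : Type} [Field F] [Field K] [Algebra F K]

theorem iS_tA : ((iS F K (tA F) : SL3 K) : M3 K) = !![1, 1, 0; 0, 1, 0; 0, 0, 1] := by
  ext i j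
  fin_cases i <;> fin_cases j <;>
    simp [iS, tA, Matrix.SpecialLinearGroup.map_apply_coe, RingHom.mapMatrix_apply]

theorem iS_tB : ((iS F K (tB F) : SL3 K) : M3 K) = !![1, 0, 0; 0, 1, 1; 0, 0, 1] := by
  ext i j
  fin_cases i <;> fin_cases j <;>
    simp [iS, tB, Matrix.SpecialLinearGroup.map_apply_coe, RingHom.mapMatrix_apply]

theorem iS_tC : ((iS F K (tC F) : SL3 K) : M3 K) = !![1, 0, 0; 0, 1, 0; 1, 0, 1] := by
  ext i j
  fin_cases i <;> fin_cases j <;>
    simp [iS, tC, Matrix.SpecialLinearGroup.map_apply_coe, RingHom.mapMatrix_apply]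

theorem iS_tD : ((iS F K (tD F) : SL3 K) : M3 K) = !![0, 0, 1; 1, 0, 0; 0, 1, 1] := by
  ext i j
  fin_cases i <;> fin_cases j <;>
    simp [iS, tD, Matrix.SpecialLinearGroup.map_apply_coe, RingHom.mapMatrix_apply]

end base

/-- a matrix commuting with the three elementary matrices is scalar -/
theorem scalar_of_comm {K : Type} [Field K] (A : M3 K)
    (h1 : A * !![1, 1, 0; 0, 1, 0; 0, 0, 1] = !![1, 1, 0; 0, 1, 0; 0, 0, 1] * A)
    (h2 : A * !![1, 0, 0; 0, 1, 1; 0, 0, 1] = !![1, 0, 0; 0, 1, 1; 0, 0, 1] * A)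
    (h3 : A * !![1, 0, 0; 0, 1, 0; 1, 0, 1] = !![1, 0, 0; 0, 1, 0; 1, 0, 1] * A) :
    A = dg (A 0 0) (A 0 0) (A 0 0) := by
  have e1 : ∀ i j : Fin 3, (A * !![1, 1, 0; 0, 1, 0; 0, 0, 1] : M3 K) i j =
      (!![1, 1, 0; 0, 1, 0; 0, 0, 1] * A : M3 K) i j := fun i j => congrFun (congrFun h1 i) j
  have e2 : ∀ i j : Fin 3, (A * !![1, 0, 0; 0, 1, 1; 0, 0, 1] : M3 K) i j =
      (!![1, 0, 0; 0, 1, 1; 0, 0, 1] * A : M3 K) i j := fun i j => congrFun (congrFun h2 i) j
  have e3 : ∀ i j : Fin 3, (A * !![1, 0, 0; 0, 1, 0; 1, 0, 1] : M3 K) i j =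
      (!![1, 0, 0; 0, 1, 0; 1, 0, 1] * A : M3 K) i j := fun i j => congrFun (congrFun h3 i) j
  have a01 := e1 0 1
  have a11 := e1 1 1
  have a21 := e1 2 1
  have b02 := e2 0 2
  have b12 := e2 1 2
  have b22 := e2 2 2
  have c00 := e3 0 0
  have c10 := e3 1 0
  have c20 := e3 2 0
  simp [Matrix.mul_apply, Fin.sum_univ_three] at a01 a11 a21 b02 b12 b22 c00 c10 c20
  ext i j
  fin_cases i <;> fin_cases j <;> simp [dg]
  all_goals first | assumption | simp_all

theorem relz_thm : Pool.SCG.RELZStmt := by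
  intro F K _ _ _ x hx
  rcases x with ⟨m, s⟩
  cases s with
  | false =>
    have hc : ∀ g : SL3 F, (m : M3 K) * ((iS F K g : SL3 K) : M3 K) =
        ((iS F K g : SL3 K) : M3 K) * (m : M3 K) := by
      intro g
      have h := hx g
      rw [iota_apply, MulAut.one_apply] at h
      have h1 : m * iS F K g * m⁻¹ = iS F K g := h
      have h2 : m * iS F K g = iS F K g * m := by
        calc m * iS F K g = m * iS F K g * m⁻¹ * m := by rw [inv_mul_cancel_right]
          _ = iS F K g * m := by rw [h1]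
      have h3 := congrArg (fun y : SL3 K => (y : M3 K)) h2
      simpa only [Matrix.SpecialLinearGroup.coe_mul] using h3
    have h1 := hc (tA F)
    have h2 := hc (tB F)
    have h3 := hc (tC F)
    rw [iS_tA] at h1
    rw [iS_tB] at h2
    rw [iS_tC] at h3
    have hA := scalar_of_comm (m : M3 K) h1 h2 h3
    refine ⟨(m : M3 K) 0 0, ?_, rfl, hA⟩
    have hdet : (m : M3 K).det = 1 := m.2
    rw [hA, dg_det] at hdet
    calc (m : M3 K) 0 0 ^ 3 = (m : M3 K) 0 0 * (m : M3 K) 0 0 * (m : M3 K) 0 0 := by ring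
      _ = 1 := hdet
  | true =>
    exfalso
    have h := hx (tD F)
    rw [iota_apply, MulAut.one_apply] at h
    have h3 : it (m * iS F K (tD F) * m⁻¹) = iS F K (tD F) := h
    have h4 : m * iS F K (tD F) * m⁻¹ = it (iS F K (tD F)) := by
      rw [← h3, it_it, h3]
    have h5 : ((m * iS F K (tD F) * m⁻¹ : SL3 K) : M3 K).trace = 1 := by
      rw [Matrix.SpecialLinearGroup.coe_mul, Matrix.trace_mul_comm,
        ← Matrix.SpecialLinearGroup.coe_mul, ← mul_assoc, inv_mul_cancel, one_mul, iS_tD]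
      simp [Matrix.trace, Fin.sum_univ_three]
    rw [h4, coe_it, Matrix.trace_transpose, iS_tD] at h5
    simp [Matrix.trace, Fin.sum_univ_three, Matrix.adjugate_fin_three] at h5

end Pool.Agent.H66.SCG2
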